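import Pool.Agent.H71.PX.Targets

/-!
# MP_64fb07_lc, pfc_modules, row Z4: the number of elements
-/

set_option autoImplicit false

namespace Pool.Agent.H4.PX.Z4

open Pool.Agent.H71.PX

theorem pf_Z4 (rb : T_RB) (z1 : T_Z1) (z2 : T_Z2) (z3 : T_Z3) : T_Z4 := by
  classical
  intro α Q m U Hh Vv n v hfin hok hI hTp
  obtain ⟨hN, hP⟩ := z1 α Q m U Hh Vv n v hok hI hTp
  have h2 : ∀ i j : ℕ, ∃ g c : α, i ≤ v → j < i →
      (m.gp g ∧ m.P false (n i) g ∧ m.P true (n j) g) ∧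
      (m.cl c ∧ m.P false (n i) c ∧ m.P true (n j) c) := by
    intro i j
    by_cases h : i ≤ v ∧ j < i
    · obtain ⟨⟨g, g1, g2, g3, _⟩, c, c1, c2, c3⟩ := z2 α Q m U Hh Vv n v hok hI i h.1 j h.2
      exact ⟨g, c, fun _ _ => ⟨⟨g1, g2, g3⟩, c1, c2, c3⟩⟩
    · exact ⟨n 0, n 0, fun h1 h2 => absurd ⟨h1, h2⟩ h⟩
  choose g c hgc using h2
  have hninj : ∀ i j, i ≤ v → j ≤ v → n i = n j → i = j := by
    have key : ∀ i j, i < j → j ≤ v → n i ≠ n j := by
      intro i j hij hj h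
      have h1 := hI.ord i j hij hj
      have h3 := (hok.uN (hI.num i (by omega)) (hI.num j hj)).2.1 h1
      rw [← h] at h1 h3
      exact h3 h1
    intro i j hi hj h
    rcases Nat.lt_trichotomy i j with h1 | h1 | h1
    · exact absurd h (key i j h1 hj)
    · exact h1
    · exact absurd h.symm (key j i h1 hi)
  let φ : Fin (v + 1) × Fin (v + 1) → α := fun p =>
    if p.1.1 = p.2.1 then n p.1.1 else if p.2.1 < p.1.1 then g p.1.1 p.2.1 else c p.2.1 p.1.1
  have e1 : ∀ i j : Fin (v + 1), i.1 = j.1 → φ (i, j) = n i.1 := fun i j h => if_pos h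
  have e2 : ∀ i j : Fin (v + 1), j.1 < i.1 → φ (i, j) = g i.1 j.1 := fun i j h => by
    change (if i.1 = j.1 then n i.1 else if j.1 < i.1 then g i.1 j.1 else c j.1 i.1) = _
    rw [if_neg (by omega), if_pos h]
  have e3 : ∀ i j : Fin (v + 1), i.1 < j.1 → φ (i, j) = c j.1 i.1 := fun i j h => by
    change (if i.1 = j.1 then n i.1 else if j.1 < i.1 then g i.1 j.1 else c j.1 i.1) = _
    rw [if_neg (by omega), if_neg (by omega)]
  have hbij : Function.Bijective φ := by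
    constructor
    · rintro ⟨i, j⟩ ⟨i', j'⟩ h
      have hi : i.1 ≤ v := Nat.lt_succ_iff.1 i.2
      have hj : j.1 ≤ v := Nat.lt_succ_iff.1 j.2
      have hi' : i'.1 ≤ v := Nat.lt_succ_iff.1 i'.2
      have hj' : j'.1 ≤ v := Nat.lt_succ_iff.1 j'.2
      have hfinal : i.1 = i'.1 → j.1 = j'.1 → (i, j) = (i', j') := fun h1 h2 =>
        Prod.ext (Fin.ext h1) (Fin.ext h2)
      rcases Nat.lt_trichotomy i.1 j.1 with h1 | h1 | h1 <;>
        rcases Nat.lt_trichotomy i'.1 j'.1 with h3 | h3 | h3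
      · -- climbers
        rw [e3 i j h1, e3 i' j' h3] at h
        obtain ⟨a1, a2, a3⟩ := (hgc j.1 i.1 hj h1).2
        obtain ⟨b1, b2, b3⟩ := (hgc j'.1 i'.1 hj' h3).2
        rw [← h] at b2 b3
        have hu := (rb α Q m U Hh Vv n v hok hI _ a1.1).2.2
        exact hfinal (hu _ _ hi hi' true a3 b3) (hu _ _ hj hj' false a2 b2)
      · rw [e3 i j h1, e1 i' j' h3] at h
        obtain ⟨a1, _⟩ := (hgc j.1 i.1 hj h1).2
        rw [h] at a1
        exact absurd (hI.num _ hi') a1.1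
      · rw [e3 i j h1, e2 i' j' h3] at h
        obtain ⟨a1, _⟩ := (hgc j.1 i.1 hj h1).2
        obtain ⟨b1, _⟩ := (hgc i'.1 j'.1 hi' h3).1
        rw [h] at a1
        exact absurd a1.2 b1.2
      · rw [e1 i j h1, e3 i' j' h3] at h
        obtain ⟨b1, _⟩ := (hgc j'.1 i'.1 hj' h3).2
        rw [← h] at b1
        exact absurd (hI.num _ hi) b1.1
      · rw [e1 i j h1, e1 i' j' h3] at h
        have h4 := hninj _ _ hi hi' h
        exact hfinal h4 (by omega)
      · rw [e1 i j h1, e2 i' j' h3] at h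
        obtain ⟨b1, _⟩ := (hgc i'.1 j'.1 hi' h3).1
        rw [← h] at b1
        exact absurd (hI.num _ hi) b1.1
      · rw [e2 i j h1, e3 i' j' h3] at h
        obtain ⟨a1, _⟩ := (hgc i.1 j.1 hi h1).1
        obtain ⟨b1, _⟩ := (hgc j'.1 i'.1 hj' h3).2
        rw [h] at a1
        exact absurd b1.2 a1.2
      · rw [e2 i j h1, e1 i' j' h3] at h
        obtain ⟨a1, _⟩ := (hgc i.1 j.1 hi h1).1
        rw [h] at a1
        exact absurd (hI.num _ hi') a1.1
      · rw [e2 i j h1, e2 i' j' h3] at h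
        obtain ⟨a1, a2, a3⟩ := (hgc i.1 j.1 hi h1).1
        obtain ⟨b1, b2, b3⟩ := (hgc i'.1 j'.1 hi' h3).1
        rw [← h] at b2 b3
        have hu := (rb α Q m U Hh Vv n v hok hI _ a1.1).2.2
        exact hfinal (hu _ _ hi hi' false a2 b2) (hu _ _ hj hj' true a3 b3)
    · intro y
      by_cases hy : m.N y
      · obtain ⟨k, hk, rfl⟩ := hN y hy
        exact ⟨(⟨k, by omega⟩, ⟨k, by omega⟩), e1 _ _ rfl⟩
      · obtain ⟨i, hi, j, hji, p1, p2⟩ := hP y hy
        by_cases hC : m.C y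
        · obtain ⟨a1, a2, a3⟩ := (hgc i j hi hji).2
          refine ⟨(⟨j, by omega⟩, ⟨i, by omega⟩), ?_⟩
          rw [e3 ⟨j, by omega⟩ ⟨i, by omega⟩ hji]
          exact z3 α Q m U Hh Vv n v hok hI i hi j hji _ _ a1.1 hy
            ⟨fun _ => hC, fun _ => a1.2⟩ a2 a3 p1 p2
        · obtain ⟨a1, a2, a3⟩ := (hgc i j hi hji).1
          refine ⟨(⟨i, by omega⟩, ⟨j, by omega⟩), ?_⟩
          rw [e2 ⟨i, by omega⟩ ⟨j, by omega⟩ hji]
          exact z3 α Q m U Hh Vv n v hok hI i hi j hji _ _ a1.1 hy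
            ⟨fun h => absurd h a1.2, fun h => absurd h hC⟩ a2 a3 p1 p2
  rw [← Nat.card_congr (Equiv.ofBijective φ hbij), Nat.card_prod, Nat.card_fin, sq]

end Pool.Agent.H4.PX.Z4
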